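import Mathlib

/-! Integral mean of `1/f'` for convex univalent maps (MP_6f6574_an): statements. -/

open Set Filter Topology Complex Metric

noncomputable section

namespace Y242.IM

/-- circle mean of `1/|f'|` -/
def mean (f : ℂ → ℂ) (r : ℝ) : ℝ :=
  (2 * Real.pi)⁻¹ * ∫ θ in (0 : ℝ)..(2 * Real.pi), ‖(deriv f (r * exp (θ * I)))⁻¹‖

/-- the class `S^c` -/
def Sc (f : ℂ → ℂ) : Prop :=
  DifferentiableOn ℂ f (ball 0 1) ∧ InjOn f (ball 0 1) ∧ f 0 = 0 ∧ deriv f 0 = 1 ∧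
    Convex ℝ (f '' ball 0 1)

/-- the circle mean of radius `r` is at most `r / min |f|` on the same circle -/
def S_A : Prop := ∀ f : ℂ → ℂ, Sc f → ∀ r : ℝ, 0 < r → r < 1 → ∀ d : ℝ, 0 < d →
  (∀ z : ℂ, ‖z‖ = r → d ≤ ‖f z‖) → mean f r ≤ r / d

/-- the circle means converge as `r → 1` -/
def S_B : Prop := ∀ f : ℂ → ℂ, Sc f → ∃ L : ℝ, Tendsto (mean f) (𝓝[<] 1) (𝓝 L)

/-- the half-plane map: both sides are equal to `2` -/
def S_C : Prop := Sc (fun z => z / (1 - z)) ∧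
  Tendsto (mean (fun z => z / (1 - z))) (𝓝[<] 1) (𝓝 2) ∧
  IsLUB {x : ℝ | ∃ z ∈ ball (0 : ℂ) 1, z ≠ 0 ∧ x = ‖z / (z / (1 - z))‖} 2

end Y242.IM
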